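import Pool.Agent.Helper76.P13.StD
import Pool.Agent.Helper84.P13.D1
import Pool.Agent.Helper10.P13.Pj

/-!
# Project P13 (levels `13^n`): modules STA and LWD

Adapted from `Helper55/TK7/M_Sta.lean` and `Helper73/P11/M_Pst.lean`.
-/

set_option autoImplicit false

namespace Pool.Agent.Helper86.P13L

open Pool.Agent.Helper76.P13D Pool.Agent.Helper84.P13 Pool.Agent.Helper28.P13
open Pool.Agent.Helper10.P13 (pj S13Pj pj13)

section

variable {r s : ℕ}

private theorem lmul {A B : Module.End (ZMod 13) (Fn13 (13 ^ r) (13 ^ s))} {a b : ℤ} (hA : Lw A a)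
    (hB : Lw B b) : Lw (A * B) (a + b) := (low0 r s).1 _ _ _ _ hA hB

private theorem ladd {A B : Module.End (ZMod 13) (Fn13 (13 ^ r) (13 ^ s))} {a : ℤ} (hA : Lw A a)
    (hB : Lw B a) : Lw (A + B) a := (low0 r s).2.1 _ _ _ hA hB

private theorem lmono {A : Module.End (ZMod 13) (Fn13 (13 ^ r) (13 ^ s))} {a b : ℤ} (h : b ≤ a)
    (hA : Lw A a) : Lw A b := (low0 r s).2.2.2.1 _ _ _ h hA

private theorem lpj (c : ℕ) : Lw (pj c : Module.End (ZMod 13) (Fn13 (13 ^ r) (13 ^ s))) 0 :=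
  (pj13 r s).1 c

private theorem low_w (c : ℕ) (w : Fin 12) :
    Lw (oW w * pj c - ((om12 w : ℤ) : ZMod 13) ^ c • pj c :
      Module.End (ZMod 13) (Fn13 (13 ^ r) (13 ^ s))) 15 := by
  have h := ((pj13 r s).2.2.2.1 c w).2
  push_cast at h
  exact h

/-- an operator congruent to `oW w` on the classes -/
private theorem cls (T : Module.End (ZMod 13) (Fn13 (13 ^ r) (13 ^ s))) (w : Fin 12) (z : ZMod 13)
    (hz : ((om12 w : ℤ) : ZMod 13) = z) (hT : Lw (T - oW w) 1) (e : ℤ)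
    (E : Fn13 (13 ^ r) (13 ^ s)) (hE : E ∈ Wd13 e) (k : ℕ) :
    T (pj k E) - z ^ k • pj k E ∈ Wd13 (e - 1) := by
  have a1 : Lw ((T - oW w) * pj k) 1 := by
    have := lmul hT (lpj (r := r) (s := s) k)
    rwa [add_zero] at this
  have a2 : Lw (oW w * pj k - z ^ k • pj k :
      Module.End (ZMod 13) (Fn13 (13 ^ r) (13 ^ s))) 1 := by
    have := low_w (r := r) (s := s) k w
    rw [hz] at this
    exact lmono (by norm_num) this
  have a4 : (T - oW w) * pj k + (oW w * pj k - z ^ k • pj k) = T * pj k - z ^ k • pj k := by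
    rw [sub_mul]
    abel
  have a3 := ladd a1 a2
  rw [a4] at a3
  exact a3 e E hE

/-- `(1 - 9^k)⁻¹` modulo `13` for `k = 2, 4, 8, 10`. -/
private def cf (k : ℕ) : ZMod 13 :=
  ([0, 0, 6, 0, 8, 0, 0, 0, 6, 0, 8, 0] : List (ZMod 13)).getD k 0

/-- `1/2` modulo `13` for odd `k`. -/
private def cg (k : ℕ) : ZMod 13 :=
  ([0, 7, 0, 7, 0, 7, 0, 7, 0, 7, 0, 7] : List (ZMod 13)).getD k 0

end

/-- **STA.** -/
theorem hSta : TSta := by
  intro r s e E hE h0 h6
  obtain ⟨T, hT⟩ : ∃ T : Module.End (ZMod 13) (Fn13 (13 ^ r) (13 ^ s)), T = op13 4 (-1) 1 (-3) :=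
    ⟨_, rfl⟩
  obtain ⟨T', hT'⟩ : ∃ T' : Module.End (ZMod 13) (Fn13 (13 ^ r) (13 ^ s)), T' = op13 5 (-2) 1 (-5) :=
    ⟨_, rfl⟩
  have hl := ((lw1 r s 4 (-1) 1 (-3) (by norm_num) (by norm_num)).2 8 (by decide)).1
  have hl' := ((lw1 r s 5 (-2) 1 (-5) (by norm_num) (by norm_num)).2 6 (by decide)).1
  rw [← hT] at hl
  rw [← hT'] at hl'
  have z8 : ((om12 8 : ℤ) : ZMod 13) = 9 := by decide
  have z6 : ((om12 6 : ℤ) : ZMod 13) = -1 := by decide
  have hR := cls T 8 9 z8 hl e E hE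
  have hR' := cls T' 6 (-1) z6 hl' e E hE
  have hP : ∀ k : ℕ, pj k E ∈ (Wd13 e : Submodule (ZMod 13) (Fn13 (13 ^ r) (13 ^ s))) := fun k => by
    have := lpj (r := r) (s := s) k e E hE
    rwa [sub_zero] at this
  have hsum : ∑ k ∈ Finset.range 12, pj k E = E := by
    have h := congrArg (fun O : Module.End (ZMod 13) (Fn13 (13 ^ r) (13 ^ s)) => O E)
      (pj13 r s).2.1
    simp only [LinearMap.sum_apply] at h
    exact h
  refine ⟨∑ k ∈ Finset.range 12, cf k • pj k E, ∑ k ∈ Finset.range 12, cg k • pj k E,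
    Submodule.sum_mem _ fun k _ => Submodule.smul_mem _ _ (hP k),
    Submodule.sum_mem _ fun k _ => Submodule.smul_mem _ _ (hP k), ?_⟩
  rw [← hT, ← hT']
  have key : E - (∑ k ∈ Finset.range 12, cf k • pj k E -
      T (∑ k ∈ Finset.range 12, cf k • pj k E)) -
      (∑ k ∈ Finset.range 12, cg k • pj k E - T' (∑ k ∈ Finset.range 12, cg k • pj k E)) =
      ∑ k ∈ Finset.range 12, ((1 - cf k * (1 - (9 : ZMod 13) ^ k) -
          cg k * (1 - (-1 : ZMod 13) ^ k)) • pj k E +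
        cf k • (T (pj k E) - (9 : ZMod 13) ^ k • pj k E) +
        cg k • (T' (pj k E) - (-1 : ZMod 13) ^ k • pj k E)) := by
    have h1 : ∀ k ∈ Finset.range 12, ((1 - cf k * (1 - (9 : ZMod 13) ^ k) -
          cg k * (1 - (-1 : ZMod 13) ^ k)) • pj k E +
        cf k • (T (pj k E) - (9 : ZMod 13) ^ k • pj k E) +
        cg k • (T' (pj k E) - (-1 : ZMod 13) ^ k • pj k E)) =
        pj k E - (cf k • pj k E - T (cf k • pj k E)) - (cg k • pj k E - T' (cg k • pj k E)) := by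
      intro k _
      rw [map_smul, map_smul]
      module
    rw [Finset.sum_congr rfl h1, Finset.sum_sub_distrib, Finset.sum_sub_distrib,
      Finset.sum_sub_distrib, Finset.sum_sub_distrib, hsum, map_sum, map_sum]
  rw [key]
  refine Submodule.sum_mem _ fun k hk => Submodule.add_mem _ (Submodule.add_mem _ ?_
    (Submodule.smul_mem _ _ (hR k))) (Submodule.smul_mem _ _ (hR' k))
  have hz : ∀ t : ZMod 13, t = 0 → t • pj k E ∈ (Wd13 (e - 1) :
      Submodule (ZMod 13) (Fn13 (13 ^ r) (13 ^ s))) := by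
    intro t ht
    rw [ht, zero_smul]
    exact Submodule.zero_mem _
  have hk' := Finset.mem_range.1 hk
  interval_cases k
  · exact Submodule.smul_mem _ _ h0
  · exact hz _ (by decide)
  · exact hz _ (by decide)
  · exact hz _ (by decide)
  · exact hz _ (by decide)
  · exact hz _ (by decide)
  · exact Submodule.smul_mem _ _ h6
  · exact hz _ (by decide)
  · exact hz _ (by decide)
  · exact hz _ (by decide)
  · exact hz _ (by decide)
  · exact hz _ (by decide)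

/-- **LWD.** -/
theorem hLwd : TLwd := by
  intro r s d u hu
  have w0 : (oW 0 : Module.End (ZMod 13) (Fn13 (13 ^ r) (13 ^ s))) = 1 := by
    apply LinearMap.ext
    intro G
    exact (trm (ZMod 13) r s G).2.1
  obtain ⟨-, hT⟩ := (lw1 r s 1 1 0 1 (by norm_num) (by norm_num)).2 0 (by decide)
  obtain ⟨-, hρ⟩ := (lw1 r s 4 (-1) 1 (-3) (by norm_num) (by norm_num)).2 8 (by decide)
  obtain ⟨-, hβ⟩ := (lw1 r s 5 (-2) 1 (-5) (by norm_num) (by norm_num)).2 6 (by decide)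
  obtain ⟨-, hα⟩ := (lw1 r s 8 (-5) 1 (-8) (by norm_num) (by norm_num)).2 6 (by decide)
  obtain ⟨-, hτ⟩ := (lw1 r s 10 (-7) 1 (-9) (by norm_num) (by norm_num)).2 4 (by decide)
  have c1 : (((1 * 1 ^ 11 : ℤ)) : ZMod 13) = 1 := by decide
  have c2 : (((0 * 1 ^ 11 * om12 0 ^ 11 : ℤ)) : ZMod 13) = 0 := by decide
  have c3 : (((-1 * 4 ^ 11 : ℤ)) : ZMod 13) = 3 := by decide
  have c4 : (((1 * 4 ^ 11 * om12 8 ^ 11 : ℤ)) : ZMod 13) = 4 := by decide
  have c5 : (((-2 * 5 ^ 11 : ℤ)) : ZMod 13) = 10 := by decide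
  have c6 : (((1 * 5 ^ 11 * om12 6 ^ 11 : ℤ)) : ZMod 13) = 5 := by decide
  have c7 : (((-5 * 8 ^ 11 : ℤ)) : ZMod 13) = 1 := by decide
  have c8 : (((1 * 8 ^ 11 * om12 6 ^ 11 : ℤ)) : ZMod 13) = 8 := by decide
  have c9 : (((-7 * 10 ^ 11 : ℤ)) : ZMod 13) = 11 := by decide
  have c10 : (((1 * 10 ^ 11 * om12 4 ^ 11 : ℤ)) : ZMod 13) = 10 := by decide
  rw [c1, c2, w0] at hT
  rw [c3, c4] at hρ
  rw [c5, c6] at hβ
  rw [c7, c8] at hα
  rw [c9, c10] at hτ
  have a0 := hT d (u 0) (hu 0)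
  have a1 := hρ d (u 1) (hu 1)
  have a2 := hβ d (u 2) (hu 2)
  have a3 := hα d (u 3) (hu 3)
  have a4 := hτ d (u 4) (hu 4)
  have a5 := Submodule.add_mem _ (Submodule.add_mem _ (Submodule.add_mem _ (Submodule.sub_mem _ a1 a0) a2) a3) a4
  convert a5 using 1
  simp only [LinearMap.sub_apply, LinearMap.add_apply, Module.End.mul_apply, Module.End.one_apply,
    LinearMap.smul_apply, one_smul, one_mul, zero_smul, add_zero]
  have e0 : (DfP u : Fn13 (13 ^ r) (13 ^ s)) = u 0 - op13 1 1 0 1 (u 0) - (u 1 - op13 4 (-1) 1 (-3) (u 1)) -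
      (u 2 - op13 5 (-2) 1 (-5) (u 2)) - (u 3 - op13 8 (-5) 1 (-8) (u 3)) -
      (u 4 - op13 10 (-7) 1 (-9) (u 4)) := rfl
  rw [e0]
  generalize op13 1 1 0 1 (u 0) = B0
  generalize op13 4 (-1) 1 (-3) (u 1) = B1
  generalize op13 5 (-2) 1 (-5) (u 2) = B2
  generalize op13 8 (-5) 1 (-8) (u 3) = B3
  generalize op13 10 (-7) 1 (-9) (u 4) = B4
  generalize oW 8 (u 1 + (3 : ZMod 13) • dX (u 1) + (4 : ZMod 13) • dY (u 1)) = C1
  generalize oW 6 (u 2 + (10 : ZMod 13) • dX (u 2) + (5 : ZMod 13) • dY (u 2)) = C2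
  generalize oW 6 (u 3 + dX (u 3) + (8 : ZMod 13) • dY (u 3)) = C3
  generalize oW 4 (u 4 + (11 : ZMod 13) • dX (u 4) + (10 : ZMod 13) • dY (u 4)) = C4
  funext x y
  simp only [Pi.add_apply, Pi.sub_apply]
  ring

end Pool.Agent.Helper86.P13L
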